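import Pool.Agent.Helper36.FT.Core

/-!
# Dependent unit vectors
-/

set_option autoImplicit false

open Real Finset

namespace Pool.Agent.Helper36.FT

variable {E : Type*} [NormedAddCommGroup E] [InnerProductSpace ℝ E]

/-- the complement of the non-obtuse angle -/
noncomputable def ww (x y : E) : ℝ := arcsin |(inner ℝ x y : ℝ)|

theorem ww_nonneg (x y : E) : 0 ≤ ww x y := arcsin_nonneg.2 (abs_nonneg _)

theorem ww_comm (x y : E) : ww x y = ww y x := by
  unfold ww; rw [real_inner_comm]

theorem abs_inner_le {x y : E} (hx : ‖x‖ = 1) (hy : ‖y‖ = 1) : |(inner ℝ x y : ℝ)| ≤ 1 := by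
  have := abs_real_inner_le_norm x y
  rwa [hx, hy, one_mul] at this

theorem sin_ww {x y : E} (hx : ‖x‖ = 1) (hy : ‖y‖ = 1) : sin (ww x y) = |(inner ℝ x y : ℝ)| :=
  sin_arcsin (by have := abs_nonneg (inner ℝ x y : ℝ); linarith) (abs_inner_le hx hy)

/-- the sum over the ordered pairs -/
noncomputable def TT {n : ℕ} (x : Fin n → E) : ℝ := ∑ i, ∑ j, (if i = j then 0 else ww (x i) (x j))

theorem elim {n : ℕ} (hn : ∀ z : Fin n → E, (∀ i, ‖z i‖ = 1) → ¬ LinearIndependent ℝ z → π ≤ TT z)
    (x : Fin (n + 1) → E) (hx : ∀ i, ‖x i‖ = 1) (hd : ¬ LinearIndependent ℝ x) : π ≤ TT x := by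
  by_contra hT
  push Not at hT
  have hpi := pi_pos
  -- the vertex of least weight
  set R : Fin (n + 1) → ℝ := fun k => ∑ j, (if k = j then 0 else ww (x k) (x j)) with hR
  obtain ⟨k, hk⟩ : ∃ k, ((n : ℝ) + 1) * R k ≤ TT x := by
    by_contra hcon
    push Not at hcon
    have h1 : ∑ k : Fin (n + 1), TT x < ∑ k : Fin (n + 1), ((n : ℝ) + 1) * R k :=
      sum_lt_sum_of_nonempty univ_nonempty fun k _ => hcon k
    rw [← mul_sum, sum_const, card_univ, Fintype.card_fin, nsmul_eq_mul] at h1
    have h2 : ∑ k, R k = TT x := rfl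
    rw [h2] at h1
    push_cast at h1
    exact lt_irrefl _ h1
  set u : E := x k with hu
  set y : Fin n → E := fun i => x (k.succAbove i) with hy
  have hu1 : ‖u‖ = 1 := hx k
  have hy1 : ∀ i, ‖y i‖ = 1 := fun i => hx _
  set a : Fin n → ℝ := fun i => ww u (y i) with ha
  set b : Fin n → Fin n → ℝ := fun i j => ww (y i) (y j) with hb
  have ha0 : ∀ i, 0 ≤ a i := fun i => ww_nonneg _ _
  have hb0 : ∀ i j, 0 ≤ b i j := fun i j => ww_nonneg _ _
  have hbs : ∀ i j, b i j = b j i := fun i j => ww_comm _ _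
  have hRk : R k = ∑ i, a i := by
    rw [hR]
    simp only
    rw [Fin.sum_univ_succAbove _ k, if_pos rfl, zero_add]
    refine sum_congr rfl fun i _ => ?_
    rw [if_neg (Fin.succAbove_ne k i).symm]
  have hTT : TT x = 2 * ∑ i, a i + ∑ i, ∑ j, (if i = j then 0 else b i j) := by
    unfold TT
    rw [Fin.sum_univ_succAbove _ k]
    have h1 : ∑ j, (if k = j then 0 else ww (x k) (x j)) = ∑ i, a i := hRk
    rw [h1]
    have h2 : ∀ i : Fin n, ∑ j, (if k.succAbove i = j then 0 else ww (x (k.succAbove i)) (x j)) =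
        a i + ∑ j, (if i = j then 0 else b i j) := by
      intro i
      rw [Fin.sum_univ_succAbove _ k, if_neg (Fin.succAbove_ne k i)]
      congr 1
      · exact ww_comm _ _
      · refine sum_congr rfl fun j _ => ?_
        by_cases hij : i = j
        · rw [if_pos hij, if_pos (by rw [hij])]
        · rw [if_neg hij, if_neg fun h => hij (Fin.succAbove_right_injective h)]
    simp only [h2, sum_add_distrib]
    ring
  have hT' : 2 * ∑ i, a i + ∑ i, ∑ j, (if i = j then 0 else b i j) < π := hTT ▸ hT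
  have hbt0 : 0 ≤ ∑ i, ∑ j, (if i = j then 0 else b i j) :=
    sum_nonneg fun i _ => sum_nonneg fun j _ => by
      split_ifs
      · exact le_rfl
      · exact hb0 i j
  have haS : ∀ i, a i ≤ ∑ i, a i := fun i => single_le_sum (fun m _ => ha0 m) (mem_univ i)
  have hapi : ∀ i, a i < π / 2 := fun i => by
    have := haS i
    linarith
  have hcos : ∀ i, 0 < cos (a i) := fun i =>
    cos_pos_of_mem_Ioo ⟨by have := ha0 i; linarith, hapi i⟩
  have hcossq : ∀ i, cos (a i) ^ 2 = 1 - (inner ℝ u (y i) : ℝ) ^ 2 := by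
    intro i
    rw [cos_sq', sin_ww hu1 (hy1 i), sq_abs]
  -- the projected vectors
  set z : Fin n → E := fun i => (1 / cos (a i)) • (y i - (inner ℝ u (y i) : ℝ) • u) with hz
  have huz : ∀ i, (inner ℝ u (z i) : ℝ) = 0 := by
    intro i
    simp only [hz, inner_smul_right, inner_sub_right, real_inner_self_eq_norm_sq, hu1]
    ring
  have hzz : ∀ i j, (inner ℝ (z i) (z j) : ℝ) = ((inner ℝ (y i) (y j) : ℝ) - (inner ℝ u (y i) : ℝ) * (inner ℝ u (y j) : ℝ)) / (cos (a i) * cos (a j)) := by
    intro i j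
    simp only [hz, inner_smul_left, inner_smul_right, inner_sub_left, inner_sub_right,
      real_inner_self_eq_norm_sq, hu1]
    rw [real_inner_comm u (y i)]
    simp only [RCLike.conj_to_real]
    field_simp
    ring
  have hz1 : ∀ i, ‖z i‖ = 1 := by
    intro i
    have h1 : ‖z i‖ ^ 2 = 1 := by
      rw [← real_inner_self_eq_norm_sq, hzz, real_inner_self_eq_norm_sq, hy1]
      have h2 := hcossq i
      have h3 := hcos i
      rw [div_eq_one_iff_eq (mul_pos h3 h3).ne']
      nlinarith
    exact (pow_eq_one_iff_of_nonneg (norm_nonneg _) two_ne_zero).1 h1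
  have hyz : ∀ i, y i = cos (a i) • z i + (inner ℝ u (y i) : ℝ) • u := by
    intro i
    simp only [hz, smul_smul]
    rw [mul_one_div_cancel (hcos i).ne', one_smul, sub_add_cancel]
  clear_value z
  have hzd : ¬ LinearIndependent ℝ z := by
    intro hli
    apply hd
    rw [Fintype.linearIndependent_iff] at hli ⊢
    intro g hg
    rw [Fin.sum_univ_succAbove _ k] at hg
    have h1 : g k • u + ∑ i, g (k.succAbove i) • y i = 0 := hg
    have h2 : (inner ℝ u (g k • u + ∑ i, g (k.succAbove i) • y i) : ℝ) = 0 := by rw [h1, inner_zero_right]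
    rw [inner_add_right, inner_smul_right, real_inner_self_eq_norm_sq, hu1, inner_sum] at h2
    simp only [inner_smul_right] at h2
    have h3 : ∑ i, (g (k.succAbove i) * cos (a i)) • z i = 0 := by
      have h4 : ∑ i, g (k.succAbove i) • y i = ∑ i, (g (k.succAbove i) * cos (a i)) • z i +
          (∑ i, g (k.succAbove i) * (inner ℝ u (y i) : ℝ)) • u := by
        rw [sum_smul, ← sum_add_distrib]
        refine sum_congr rfl fun i _ => ?_
        conv_lhs => rw [hyz i]
        rw [smul_add, smul_smul, smul_smul]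
      rw [h4] at h1
      have h5 : ∑ i, g (k.succAbove i) * (inner ℝ u (y i) : ℝ) = -g k := by linarith
      rw [h5, neg_smul] at h1
      have h6 : g k • u + (∑ i, (g (k.succAbove i) * cos (a i)) • z i + -(g k • u)) =
          ∑ i, (g (k.succAbove i) * cos (a i)) • z i := by abel
      rwa [h6] at h1
    have h4 := hli _ h3
    have h5 : ∀ i, g (k.succAbove i) = 0 := fun i =>
      (mul_eq_zero.1 (h4 i)).resolve_right (hcos i).ne'
    intro i
    rcases Fin.eq_self_or_eq_succAbove k i with rfl | ⟨j, rfl⟩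
    · simp only [h5, zero_mul, sum_const_zero, add_zero] at h2
      linarith
    · exact h5 j
  have h1 := hn z hz1 hzd
  have h2 : TT z ≤ ∑ i, ∑ j, (if i = j then 0 else sF (a i) (a j) (b i j)) := by
    unfold TT
    refine sum_le_sum fun i _ => sum_le_sum fun j _ => ?_
    split_ifs with hij
    · exact le_rfl
    · unfold ww sF
      apply monotone_arcsin
      rw [hzz, abs_div, abs_of_pos (mul_pos (hcos i) (hcos j))]
      apply div_le_div_of_nonneg_right _ (mul_pos (hcos i) (hcos j)).le
      rw [sin_ww (hy1 i) (hy1 j), sin_ww hu1 (hy1 i), sin_ww hu1 (hy1 j), ← abs_mul]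
      exact abs_sub _ _
  have h3 : ∑ i, ∑ j, (if i = j then 0 else sF (a i) (a j) (b i j)) < π := by
    rcases Nat.lt_or_ge n 3 with h | h
    · obtain rfl | rfl | rfl : n = 0 ∨ n = 1 ∨ n = 2 := by omega
      · simpa using hpi
      · simpa using hpi
      · exact core2 a b ha0 hb0 hbs hT'
    · apply core a b ha0 hb0 hbs _ hT'
      have h4 : (3 : ℝ) ≤ n := by exact_mod_cast h
      rw [hRk] at hk
      have h5 : 0 ≤ ∑ i, a i := sum_nonneg fun i _ => ha0 i
      nlinarith
  linarith

theorem dependent : ∀ {n : ℕ} (x : Fin n → E), (∀ i, ‖x i‖ = 1) → ¬ LinearIndependent ℝ x →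
    π ≤ TT x
  | 0, x, _, hd => absurd (linearIndependent_empty_type (v := x)) hd
  | _ + 1, x, hx, hd => elim (fun z => dependent z) x hx hd

end Pool.Agent.Helper36.FT
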