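import Mathlib

/-!
# Analysis for the sum of acute angles
-/

set_option autoImplicit false

open Real Finset

namespace Pool.Agent.Helper36.FT

/-- the angle after the elimination of a vector -/
noncomputable def sF (x y b : ℝ) : ℝ :=
  arcsin ((sin b + sin x * sin y) / (cos x * cos y))

theorem alg {w1 w2 c k : ℝ} (h0 : 0 ≤ w1) (h12 : w1 ≤ w2) (hc : 0 ≤ c) (hk0 : 0 ≤ k)
    (hk1 : k ≤ 1) :
    (1 - w1 ^ 2) * (k ^ 2 - (w2 + c) ^ 2) ≤ (1 - w2 ^ 2) * (k ^ 2 - (w1 + c) ^ 2) := by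
  have h1 : (1 - w2 ^ 2) * (k ^ 2 - (w1 + c) ^ 2) - (1 - w1 ^ 2) * (k ^ 2 - (w2 + c) ^ 2) =
      (w2 - w1) * ((w1 + w2) * (1 - k ^ 2) + 2 * c + c * (2 * w1 * w2 + c * (w1 + w2))) := by
    ring
  have h2 : 0 ≤ w2 := h0.trans h12
  have h3 : 0 ≤ 1 - k ^ 2 := by nlinarith
  have h4 : 0 ≤ (w2 - w1) *
      ((w1 + w2) * (1 - k ^ 2) + 2 * c + c * (2 * w1 * w2 + c * (w1 + w2))) := by
    have : 0 ≤ w2 - w1 := sub_nonneg.2 h12
    positivity
  linarith

theorem convex_sF {x y B : ℝ} (hx : 0 ≤ x) (hy : 0 ≤ y) (hB : 0 < B)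
    (hBx : B ≤ π / 2 - x - y) : ConvexOn ℝ (Set.Icc 0 B) (sF x y) := by
  set c : ℝ := sin x * sin y with hc
  set k : ℝ := cos x * cos y with hk
  have hpi := pi_pos
  have hxp : x < π / 2 := by linarith
  have hyp : y < π / 2 := by linarith
  have hcx : 0 < cos x := cos_pos_of_mem_Ioo ⟨by linarith, hxp⟩
  have hcy : 0 < cos y := cos_pos_of_mem_Ioo ⟨by linarith, hyp⟩
  have hk0 : 0 < k := mul_pos hcx hcy
  have hk1 : k ≤ 1 := by
    have h1 := cos_le_one x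
    have h2 := cos_le_one y
    calc k = cos x * cos y := rfl
      _ ≤ 1 * 1 := mul_le_mul h1 h2 hcy.le zero_le_one
      _ = 1 := one_mul 1
  have hc0 : 0 ≤ c := mul_nonneg (sin_nonneg_of_nonneg_of_le_pi hx (by linarith))
    (sin_nonneg_of_nonneg_of_le_pi hy (by linarith))
  have hlt : ∀ b, 0 < b → b < B → 0 ≤ sin b ∧ sin b + c < k ∧ 0 < cos b := by
    intro b h0 h1
    refine ⟨sin_nonneg_of_nonneg_of_le_pi h0.le (by linarith), ?_,
      cos_pos_of_mem_Ioo ⟨by linarith, by linarith⟩⟩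
    have h2 : sin b < sin (π / 2 - (x + y)) :=
      sin_lt_sin_of_lt_of_le_pi_div_two (by linarith) (by linarith) (by linarith)
    rw [sin_pi_div_two_sub, cos_add] at h2
    linarith
  have hder : ∀ b, 0 < b → b < B →
      HasDerivAt (sF x y) (1 / √(1 - ((sin b + c) / k) ^ 2) * (cos b / k)) b := by
    intro b h0 h1
    obtain ⟨h2, h3, -⟩ := hlt b h0 h1
    have h4 : (sin b + c) / k < 1 := by rw [div_lt_one hk0]; exact h3
    have h5 : 0 ≤ (sin b + c) / k := div_nonneg (by linarith) hk0.le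
    have h6 := hasDerivAt_arcsin (x := (sin b + c) / k) (by linarith) h4.ne
    have h7 : HasDerivAt (fun b => (sin b + c) / k) (cos b / k) b :=
      ((hasDerivAt_sin b).add_const c).div_const k
    exact h6.comp b h7
  apply MonotoneOn.convexOn_of_deriv (convex_Icc 0 B)
  · apply Continuous.continuousOn
    unfold sF
    exact continuous_arcsin.comp (by fun_prop)
  · rw [interior_Icc]
    intro b hb
    exact (hder b hb.1 hb.2).differentiableAt.differentiableWithinAt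
  · rw [interior_Icc]
    intro b1 hb1 b2 hb2 h12
    rw [(hder b1 hb1.1 hb1.2).deriv, (hder b2 hb2.1 hb2.2).deriv]
    obtain ⟨p1, q1, r1⟩ := hlt b1 hb1.1 hb1.2
    obtain ⟨p2, q2, r2⟩ := hlt b2 hb2.1 hb2.2
    have hw : sin b1 ≤ sin b2 :=
      sin_le_sin_of_le_of_le_pi_div_two (by linarith [hb1.1]) (by linarith [hb2.2]) h12
    have hpos : ∀ b, 0 ≤ sin b → sin b + c < k → 0 < 1 - ((sin b + c) / k) ^ 2 := by
      intro b h0 h1
      have h4 : (sin b + c) / k < 1 := by rw [div_lt_one hk0]; exact h1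
      have h5 : 0 ≤ (sin b + c) / k := div_nonneg (by linarith) hk0.le
      nlinarith
    have s1 := sqrt_pos.2 (hpos b1 p1 q1)
    have s2 := sqrt_pos.2 (hpos b2 p2 q2)
    rw [div_mul_div_comm, div_mul_div_comm, one_mul, one_mul, div_le_div_iff₀ (by positivity)
      (by positivity)]
    have key : cos b1 * √(1 - ((sin b2 + c) / k) ^ 2) ≤ cos b2 * √(1 - ((sin b1 + c) / k) ^ 2) := by
      apply abs_le_of_sq_le_sq' _ (by positivity) |>.2
      rw [mul_pow, mul_pow, sq_sqrt (hpos b2 p2 q2).le, sq_sqrt (hpos b1 p1 q1).le, cos_sq' b1,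
        cos_sq' b2]
      have h1 := alg p1 hw hc0 hk0.le hk1
      have h2 : ∀ w v : ℝ, (1 - w ^ 2) * (1 - ((v + c) / k) ^ 2) =
          (1 - w ^ 2) * (k ^ 2 - (v + c) ^ 2) / k ^ 2 := by
        intro w v
        field_simp
      rw [h2, h2]
      gcongr
    calc cos b1 * (√(1 - ((sin b2 + c) / k) ^ 2) * k)
        = cos b1 * √(1 - ((sin b2 + c) / k) ^ 2) * k := by ring
      _ ≤ cos b2 * √(1 - ((sin b1 + c) / k) ^ 2) * k := mul_le_mul_of_nonneg_right key hk0.le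
      _ = cos b2 * (√(1 - ((sin b1 + c) / k) ^ 2) * k) := by ring

theorem chord {x y B b : ℝ} (hx : 0 ≤ x) (hy : 0 ≤ y) (hB : 0 < B)
    (hBx : B ≤ π / 2 - x - y) (hb : 0 ≤ b) (hbB : b ≤ B) :
    sF x y b ≤ sF x y 0 + b / B * (sF x y B - sF x y 0) := by
  have e1 : 0 ≤ 1 - b / B := by
    have : b / B ≤ 1 := (div_le_one hB).2 hbB
    linarith
  have e2 : 0 ≤ b / B := by positivity
  have h := (convex_sF hx hy hB hBx).2 (Set.left_mem_Icc.2 hB.le) (Set.right_mem_Icc.2 hB.le)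
    e1 e2 (by ring)
  have h1 : (1 - b / B) • (0 : ℝ) + (b / B) • B = b := by
    simp only [smul_eq_mul]
    field_simp
    ring
  rw [h1] at h
  simp only [smul_eq_mul] at h
  linarith

/-- Two small weights. -/
theorem sF_zero_le {x y : ℝ} (hx : 0 ≤ x) (hy : 0 ≤ y) (hxy : x + y ≤ π / 4) :
    sF x y 0 ≤ 3 / 2 * (x * y) := by
  have hpi := pi_pos
  have hpi4 := pi_le_four
  have hpi3 : π < 3.15 := pi_lt_d2
  have hp : x * y ≤ 1 / 6 := by nlinarith [sq_nonneg (x - y)]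
  have hp0 : 0 ≤ x * y := mul_nonneg hx hy
  unfold sF
  rw [arcsin_le_iff_le_sin' ⟨by linarith, by nlinarith⟩, sin_zero, zero_add]
  have hcx : 0 < cos x := cos_pos_of_mem_Ioo ⟨by linarith, by linarith⟩
  have hcy : 0 < cos y := cos_pos_of_mem_Ioo ⟨by linarith, by linarith⟩
  have hsx : 0 ≤ sin x := sin_nonneg_of_nonneg_of_le_pi hx (by linarith)
  have hsy : 0 ≤ sin y := sin_nonneg_of_nonneg_of_le_pi hy (by linarith)
  rw [div_le_iff₀ (mul_pos hcx hcy)]
  have h1 : (7 : ℝ) / 10 ≤ cos x * cos y := by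
    have h2 : cos (π / 4) ≤ cos (x + y) :=
      cos_le_cos_of_nonneg_of_le_pi (by linarith) (by linarith) hxy
    rw [cos_pi_div_four, cos_add] at h2
    have h3 : (7 : ℝ) / 5 ≤ √2 := by
      apply le_sqrt_of_sq_le
      norm_num
    nlinarith [mul_nonneg hsx hsy]
  have h2 : sin x * sin y ≤ x * y := mul_le_mul (sin_le hx) (sin_le hy) hsy hx
  by_cases h0 : x * y = 0
  · rw [h0, mul_zero, sin_zero, zero_mul]
    linarith
  have h3 : 0 < x * y := lt_of_le_of_ne hp0 (Ne.symm h0)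
  have h4 := sin_gt_sub_cube (x := 3 / 2 * (x * y)) (by positivity)
  have h5 : (3 / 2 * (x * y)) ^ 3 / 6 ≤ 1 / 40 * (3 / 2 * (x * y)) := by
    have : (3 / 2 * (x * y)) ^ 2 ≤ 1 / 16 := by nlinarith
    nlinarith
  have h6 : 10 / 7 * (x * y) ≤ sin (3 / 2 * (x * y)) := by nlinarith
  calc sin x * sin y ≤ x * y := h2
    _ = 10 / 7 * (x * y) * (7 / 10) := by ring
    _ ≤ sin (3 / 2 * (x * y)) * (cos x * cos y) := by
        apply mul_le_mul h6 h1 (by norm_num) (by linarith)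

/-- One large weight. -/
theorem sF_top_le {x y S : ℝ} (hx : 0 ≤ x) (hy : 0 ≤ y) (hxy : x + y ≤ S) (hS : S ≤ π / 4) :
    sF x y (π / 2 - S) ≤ π / 2 - 3 / 4 * (S ^ 2 - (x + y) ^ 2) := by
  have hpi := pi_pos
  have hpi4 := pi_le_four
  have hpi3 : π < 3.15 := pi_lt_d2
  set Q : ℝ := S ^ 2 - (x + y) ^ 2 with hQ
  have hS0 : 0 ≤ S := by linarith
  have hS1 : S ^ 2 ≤ π ^ 2 / 16 := by nlinarith
  have hQ0 : 0 ≤ Q := by nlinarith
  have hQ1 : Q ≤ π ^ 2 / 16 := by nlinarith [sq_nonneg (x + y)]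
  have hpisq : π ^ 2 < 9.9225 := by nlinarith
  unfold sF
  by_cases hQz : Q = 0
  · rw [hQz, mul_zero, sub_zero]
    exact arcsin_le_pi_div_two _
  have hQpos : 0 < Q := lt_of_le_of_ne hQ0 (Ne.symm hQz)
  rw [arcsin_le_iff_le_sin' ⟨by nlinarith, by linarith⟩, sin_pi_div_two_sub, sin_pi_div_two_sub]
  have hcx : 0 < cos x := cos_pos_of_mem_Ioo ⟨by linarith, by linarith⟩
  have hcy : 0 < cos y := cos_pos_of_mem_Ioo ⟨by linarith, by linarith⟩
  rw [div_le_iff₀ (mul_pos hcx hcy)]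
  have h1 : 1 - (3 / 4 * Q) ^ 2 / 2 ≤ cos (3 / 4 * Q) := one_sub_sq_div_two_le_cos
  have h2 : cos (x + y) - cos S = 2 * sin ((S + (x + y)) / 2) * sin ((S - (x + y)) / 2) := by
    rw [cos_sub_cos]
    have h3 : (x + y - S) / 2 = -((S - (x + y)) / 2) := by ring
    rw [h3, sin_neg]
    have h4 : (x + y + S) / 2 = (S + (x + y)) / 2 := by ring
    rw [h4]
    ring
  have h3 : 2 / π * ((S + (x + y)) / 2) ≤ sin ((S + (x + y)) / 2) :=
    mul_le_sin (by linarith) (by linarith)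
  have h4 : 2 / π * ((S - (x + y)) / 2) ≤ sin ((S - (x + y)) / 2) :=
    mul_le_sin (by linarith) (by linarith)
  have h5 : 2 / π ^ 2 * Q ≤ cos (x + y) - cos S := by
    rw [h2]
    have h6 : 2 / π ^ 2 * Q = 2 * (2 / π * ((S + (x + y)) / 2)) * (2 / π * ((S - (x + y)) / 2)) := by
      rw [hQ]; field_simp; ring
    rw [h6]
    have h7 : 0 ≤ 2 / π * ((S + (x + y)) / 2) := by positivity
    have h8 : 0 ≤ 2 / π * ((S - (x + y)) / 2) := mul_nonneg (by positivity) (by linarith)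
    apply mul_le_mul _ h4 h8 (by linarith)
    linarith
  have h6 : (3 / 4 * Q) ^ 2 / 2 ≤ 2 / π ^ 2 * Q := by
    have h7 : (3 / 4 * Q) ^ 2 / 2 = 9 / 32 * Q * Q := by ring
    rw [h7]
    apply mul_le_mul_of_nonneg_right _ hQ0
    rw [le_div_iff₀ (by positivity)]
    nlinarith
  have h7 : cos x * cos y ≤ 1 := by
    calc cos x * cos y ≤ 1 * 1 := mul_le_mul (cos_le_one x) (cos_le_one y) hcy.le zero_le_one
      _ = 1 := one_mul 1
  rw [cos_add] at h5
  have h8 : 0 ≤ 1 - cos (3 / 4 * Q) := by linarith [cos_le_one (3 / 4 * Q)]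
  have h9 : (1 - cos (3 / 4 * Q)) * (cos x * cos y) ≤ 1 - cos (3 / 4 * Q) := by
    nlinarith [mul_pos hcx hcy]
  nlinarith

end Pool.Agent.Helper36.FT
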