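import Pool.Agent.Helper36.FT.Ana

/-!
# The combinatorial inequality
-/

set_option autoImplicit false

open Real Finset

namespace Pool.Agent.Helper36.FT

theorem two_le {n : ℕ} (D : Fin n → Fin n → ℝ) (h0 : ∀ i j, 0 ≤ D i j) {i j : Fin n}
    (hij : i ≠ j) : D i j + D j i ≤ ∑ k, ∑ l, D k l := by
  have h1 : ∀ k l, D k l ≤ ∑ l, D k l := fun k l =>
    single_le_sum (f := fun l => D k l) (fun m _ => h0 k m) (mem_univ l)
  have h2 : ∑ k ∈ ({i, j} : Finset (Fin n)), ∑ l, D k l ≤ ∑ k, ∑ l, D k l :=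
    sum_le_sum_of_subset_of_nonneg (subset_univ _) fun k _ _ => sum_nonneg fun l _ => h0 k l
  rw [sum_pair hij] at h2
  have h3 := h1 i j
  have h4 := h1 j i
  linarith

theorem core {n : ℕ} (a : Fin n → ℝ) (b : Fin n → Fin n → ℝ) (ha : ∀ i, 0 ≤ a i)
    (hb : ∀ i j, 0 ≤ b i j) (hs : ∀ i j, b i j = b j i) (hS : ∑ i, a i ≤ π / 4)
    (hT : 2 * ∑ i, a i + ∑ i, ∑ j, (if i = j then 0 else b i j) < π) :
    ∑ i, ∑ j, (if i = j then 0 else sF (a i) (a j) (b i j)) < π := by
  have hpi := pi_pos
  have hpi3 : π < 3.15 := pi_lt_d2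
  set S : ℝ := ∑ i, a i with hSdef
  have hS0 : 0 ≤ S := sum_nonneg fun i _ => ha i
  set B : ℝ := π / 2 - S with hB
  have hB0 : 0 < B := by linarith
  have hpair : ∀ i j, i ≠ j → a i + a j ≤ S := by
    intro i j hij
    have h2 : ∑ k ∈ ({i, j} : Finset (Fin n)), a k ≤ ∑ k, a k :=
      sum_le_sum_of_subset_of_nonneg (subset_univ _) fun k _ _ => ha k
    rwa [sum_pair hij] at h2
  set bt : ℝ := ∑ i, ∑ j, (if i = j then 0 else b i j) with hbt
  have hbt0 : 0 ≤ bt := sum_nonneg fun i _ => sum_nonneg fun j _ => by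
    split_ifs
    · exact le_rfl
    · exact hb i j
  have hbB : ∀ i j, i ≠ j → b i j ≤ B := by
    intro i j hij
    have h1 := two_le (fun i j => if i = j then 0 else b i j) (fun i j => by
      split_ifs
      · exact le_rfl
      · exact hb i j) hij
    simp only [if_neg hij, if_neg hij.symm] at h1
    rw [hs j i] at h1
    change b i j + b i j ≤ bt at h1
    linarith
  -- the value with all `b` zero
  set F : ℝ := ∑ i, ∑ j, (if i = j then 0 else sF (a i) (a j) 0) with hF
  set A : ℝ := ∑ i, ∑ j, (if i = j then 0 else a i * a j) with hA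
  have hAS : A = S ^ 2 - ∑ i, a i ^ 2 := by
    have h1 : ∀ i, ∑ j, (if i = j then 0 else a i * a j) = a i * S - a i ^ 2 := by
      intro i
      have h2 : ∀ j, (if i = j then 0 else a i * a j) =
          a i * a j - (if i = j then a i * a j else 0) := by
        intro j
        split_ifs <;> ring
      simp only [h2, sum_sub_distrib, sum_ite_eq, mem_univ, if_true, ← mul_sum]
      rw [← hSdef]
      ring
    rw [hA]
    simp only [h1, sum_sub_distrib, ← sum_mul]
    rw [← hSdef]
    ring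
  have hf : ∀ i j, i ≠ j → sF (a i) (a j) 0 ≤ 3 / 2 * (a i * a j) := fun i j hij =>
    sF_zero_le (ha i) (ha j) ((hpair i j hij).trans hS)
  have hFA : ∀ i j, i ≠ j →
      2 * (3 / 2 * (a i * a j) - sF (a i) (a j) 0) ≤ 3 / 2 * A - F := by
    intro i j hij
    have h1 := two_le (fun i j => if i = j then 0 else
      3 / 2 * (a i * a j) - sF (a i) (a j) 0) (fun i j => by
        split_ifs with h
        · exact le_rfl
        · have := hf i j h
          linarith) hij
    simp only [if_neg hij, if_neg hij.symm] at h1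
    have h2 : sF (a j) (a i) 0 = sF (a i) (a j) 0 := by
      unfold sF
      rw [mul_comm (sin (a j)), mul_comm (cos (a j))]
    have h3 : ∑ k, ∑ l, (if k = l then 0 else 3 / 2 * (a k * a l) - sF (a k) (a l) 0) =
        3 / 2 * A - F := by
      rw [hA, hF, mul_sum, ← sum_sub_distrib]
      refine sum_congr rfl fun k _ => ?_
      rw [mul_sum, ← sum_sub_distrib]
      refine sum_congr rfl fun l _ => ?_
      split_ifs <;> ring
    rw [h3, h2] at h1
    linarith
  have hFA0 : F ≤ 3 / 2 * A := by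
    have h3 : ∑ k, ∑ l, (if k = l then 0 else 3 / 2 * (a k * a l) - sF (a k) (a l) 0) =
        3 / 2 * A - F := by
      rw [hA, hF, mul_sum, ← sum_sub_distrib]
      refine sum_congr rfl fun k _ => ?_
      rw [mul_sum, ← sum_sub_distrib]
      refine sum_congr rfl fun l _ => ?_
      split_ifs <;> ring
    have h4 : 0 ≤ ∑ k, ∑ l, (if k = l then 0 else 3 / 2 * (a k * a l) - sF (a k) (a l) 0) :=
      sum_nonneg fun k _ => sum_nonneg fun l _ => by
        split_ifs with h
        · exact le_rfl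
        · have := hf k l h
          linarith
    linarith
  have hsq : 0 ≤ ∑ i, a i ^ 2 := sum_nonneg fun i _ => sq_nonneg _
  have hFpi : F < π := by
    have h1 : S ^ 2 ≤ 1 := by nlinarith
    have := pi_gt_three
    nlinarith
  have hcase : ∀ i j, i ≠ j → sF (a i) (a j) B - sF (a i) (a j) 0 ≤ π / 2 - F / 2 := by
    intro i j hij
    have h1 := sF_top_le (ha i) (ha j) (hpair i j hij) hS
    have h2 := hFA i j hij
    have h3 : a i ^ 2 + a j ^ 2 ≤ ∑ k, a k ^ 2 := by
      have h2 : ∑ k ∈ ({i, j} : Finset (Fin n)), a k ^ 2 ≤ ∑ k, a k ^ 2 :=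
        sum_le_sum_of_subset_of_nonneg (subset_univ _) fun k _ _ => sq_nonneg _
      rwa [sum_pair hij] at h2
    have h4 : A - 2 * (a i * a j) ≤ S ^ 2 - (a i + a j) ^ 2 := by
      rw [hAS]; nlinarith
    change sF (a i) (a j) B ≤ _ at h1
    linarith
  have hterm : ∀ i j, (if i = j then 0 else sF (a i) (a j) (b i j)) ≤
      (if i = j then 0 else sF (a i) (a j) 0) +
        (if i = j then 0 else b i j) * ((π / 2 - F / 2) / B) := by
    intro i j
    split_ifs with hij
    · simp
    · have h1 := chord (ha i) (ha j) hB0 (by have := hpair i j hij; linarith) (hb i j)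
        (hbB i j hij)
      refine h1.trans ?_
      have h2 := mul_le_mul_of_nonneg_left (hcase i j hij) (div_nonneg (hb i j) hB0.le)
      have h3 : b i j / B * (π / 2 - F / 2) = b i j * ((π / 2 - F / 2) / B) := by ring
      rw [← h3]
      linarith
  have hsum : ∑ i, ∑ j, (if i = j then 0 else sF (a i) (a j) (b i j)) ≤
      F + bt * ((π / 2 - F / 2) / B) := by
    calc ∑ i, ∑ j, (if i = j then 0 else sF (a i) (a j) (b i j))
        ≤ ∑ i, ∑ j, ((if i = j then 0 else sF (a i) (a j) 0) +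
          (if i = j then 0 else b i j) * ((π / 2 - F / 2) / B)) :=
          sum_le_sum fun i _ => sum_le_sum fun j _ => hterm i j
      _ = F + bt * ((π / 2 - F / 2) / B) := by
          simp only [sum_add_distrib, ← sum_mul]
          rfl
  refine hsum.trans_lt ?_
  have h1 : bt < 2 * B := by rw [hB]; linarith
  have h2 : 0 < (π / 2 - F / 2) / B := div_pos (by linarith) hB0
  have h3 : bt * ((π / 2 - F / 2) / B) < 2 * B * ((π / 2 - F / 2) / B) :=
    mul_lt_mul_of_pos_right h1 h2
  have h4 : 2 * B * ((π / 2 - F / 2) / B) = π - F := by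
    field_simp
  linarith

theorem core2 (a : Fin 2 → ℝ) (b : Fin 2 → Fin 2 → ℝ) (ha : ∀ i, 0 ≤ a i)
    (hb : ∀ i j, 0 ≤ b i j) (hs : ∀ i j, b i j = b j i)
    (hT : 2 * ∑ i, a i + ∑ i, ∑ j, (if i = j then 0 else b i j) < π) :
    ∑ i, ∑ j, (if i = j then 0 else sF (a i) (a j) (b i j)) < π := by
  have hpi := pi_pos
  simp only [Fin.sum_univ_two, Fin.isValue, if_true, if_neg (show (0 : Fin 2) ≠ 1 by decide),
    if_neg (show (1 : Fin 2) ≠ 0 by decide), zero_add, add_zero] at hT ⊢
  rw [hs 1 0] at hT ⊢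
  have h2 : sF (a 1) (a 0) (b 0 1) = sF (a 0) (a 1) (b 0 1) := by
    unfold sF
    rw [mul_comm (sin (a 1)), mul_comm (cos (a 1))]
  rw [h2]
  have h0 := ha 0
  have h1 := ha 1
  have h01 := hb 0 1
  have hcx : 0 < cos (a 0) := cos_pos_of_mem_Ioo ⟨by linarith, by linarith⟩
  have hcy : 0 < cos (a 1) := cos_pos_of_mem_Ioo ⟨by linarith, by linarith⟩
  have h3 : sF (a 0) (a 1) (b 0 1) < π / 2 := by
    unfold sF
    rw [arcsin_lt_pi_div_two, div_lt_one (mul_pos hcx hcy)]
    have h4 : sin (b 0 1) < sin (π / 2 - (a 0 + a 1)) :=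
      sin_lt_sin_of_lt_of_le_pi_div_two (by linarith) (by linarith) (by linarith)
    rw [sin_pi_div_two_sub, cos_add] at h4
    linarith
  linarith

end Pool.Agent.Helper36.FT
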