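import Pool.Agent.Helper36.FT.Main

/-!
# Configurations on few lines
-/

set_option autoImplicit false

open Real Finset

namespace Pool.Agent.Helper36.FT

variable {E : Type*} [NormedAddCommGroup E] [InnerProductSpace ℝ E]

theorem fib1 {N n : ℕ} (c : Fin N → Fin n) (G : Fin n → ℝ) :
    ∑ i, G (c i) = ∑ k, ((univ.filter fun i => c i = k).card : ℝ) * G k := by
  rw [← Finset.sum_fiberwise univ c (fun i => G (c i))]
  refine sum_congr rfl fun k _ => ?_
  rw [sum_congr rfl (g := fun _ => G k) (fun i hi => by rw [(mem_filter.1 hi).2]), sum_const,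
    nsmul_eq_mul]

theorem fib2 {N n : ℕ} (c : Fin N → Fin n) (F : Fin n → Fin n → ℝ) :
    ∑ i, ∑ j, F (c i) (c j) = ∑ k, ∑ l, ((univ.filter fun i => c i = k).card : ℝ) *
      ((univ.filter fun i => c i = l).card : ℝ) * F k l := by
  simp only [fun i => fib1 c (F (c i))]
  rw [fib1 c (fun k => ∑ l, ((univ.filter fun i => c i = l).card : ℝ) * F k l)]
  refine sum_congr rfl fun k _ => ?_
  rw [mul_sum]
  refine sum_congr rfl fun l _ => ?_
  ring

theorem sum_adj {N : ℕ} (G : SimpleGraph (Fin N)) [DecidableRel G.Adj] :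
    ∑ i, ∑ j, (if G.Adj i j then π / 2 else 0) = (G.edgeFinset.card : ℝ) * π := by
  have h1 : ∀ i, ∑ j, (if G.Adj i j then π / 2 else 0) = (G.degree i : ℝ) * (π / 2) := fun i => by
    rw [← sum_filter, sum_const, nsmul_eq_mul, ← G.card_neighborFinset_eq_degree,
      G.neighborFinset_eq_filter]
  simp only [h1, ← sum_mul, ← Nat.cast_sum, G.sum_degrees_eq_twice_card_edges]
  push_cast
  ring

theorem turan_le {d N : ℕ} {κ : Type} [Fintype κ] [DecidableEq κ] (hκ : Fintype.card κ ≤ d + 1)
    (h : Fin N → κ) : ∑ i, ∑ j, (if h i = h j then 0 else π / 2) ≤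
      ∑ i : Fin N, ∑ j : Fin N, (if (i : ℕ) % (d + 1) = (j : ℕ) % (d + 1) then 0 else π / 2) := by
  let G : SimpleGraph (Fin N) :=
    { Adj := fun i j => h i ≠ h j
      symm := ⟨fun _ _ h => h.symm⟩
      loopless := ⟨fun _ h => h rfl⟩ }
  have : DecidableRel G.Adj := fun i j => inferInstanceAs (Decidable (h i ≠ h j))
  have hcol : G.Colorable (Fintype.card κ) := (SimpleGraph.Coloring.mk h fun hadj => hadj).colorable
  have hfree : G.CliqueFree (d + 1 + 1) := hcol.cliqueFree (Nat.lt_succ_of_le hκ)
  have hT := (SimpleGraph.isTuranMaximal_turanGraph (n := N) (Nat.succ_pos d)).2 hfree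
  have e1 : ∑ i, ∑ j, (if h i = h j then 0 else π / 2) = (G.edgeFinset.card : ℝ) * π := by
    rw [← sum_adj]
    refine sum_congr rfl fun i _ => sum_congr rfl fun j _ => ?_
    by_cases hij : h i = h j
    · rw [if_pos hij, if_neg (fun h' : G.Adj i j => h' hij)]
    · rw [if_neg hij, if_pos (show G.Adj i j from hij)]
  have e2 : ∑ i : Fin N, ∑ j : Fin N,
      (if (i : ℕ) % (d + 1) = (j : ℕ) % (d + 1) then 0 else π / 2) =
      ((SimpleGraph.turanGraph N (d + 1)).edgeFinset.card : ℝ) * π := by
    rw [← sum_adj]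
    refine sum_congr rfl fun i _ => sum_congr rfl fun j _ => ?_
    by_cases hij : (i : ℕ) % (d + 1) = (j : ℕ) % (d + 1)
    · rw [if_pos hij, if_neg (fun h' : (SimpleGraph.turanGraph N (d + 1)).Adj i j => h' hij)]
    · rw [if_neg hij, if_pos (show (SimpleGraph.turanGraph N (d + 1)).Adj i j from hij)]
  rw [e1, e2]
  have hpi := pi_pos
  have : (G.edgeFinset.card : ℝ) ≤ ((SimpleGraph.turanGraph N (d + 1)).edgeFinset.card : ℝ) := by
    exact_mod_cast hT
  exact mul_le_mul_of_nonneg_right this hpi.le

theorem weighted {d N : ℕ} (y : Fin (d + 2) → E) (hy : ∀ k, ‖y k‖ = 1)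
    (hd : ¬ LinearIndependent ℝ y) (c : Fin N → Fin (d + 2)) :
    ∑ i, ∑ j, arccos |inner ℝ (y (c i)) (y (c j))| ≤
      ∑ i : Fin N, ∑ j : Fin N, (if (i : ℕ) % (d + 1) = (j : ℕ) % (d + 1) then 0 else π / 2) := by
  have hpi := pi_pos
  set m : Fin (d + 2) → ℝ := fun k => ((univ.filter fun i => c i = k).card : ℝ) with hm
  have hm0 : ∀ k, 0 ≤ m k := fun k => Nat.cast_nonneg _
  set W : Fin (d + 2) → Fin (d + 2) → ℝ := fun k l => if k = l then 0 else ww (y k) (y l) with hW
  have hW0 : ∀ k l, 0 ≤ W k l := fun k l => by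
    simp only [hW]
    split_ifs
    · exact le_rfl
    · exact ww_nonneg _ _
  have hTT : π ≤ ∑ k, ∑ l, W k l := dependent y hy hd
  have hF : ∀ k l, arccos |inner ℝ (y k) (y l)| = (if k = l then 0 else π / 2) - W k l := by
    intro k l
    simp only [hW]
    split_ifs with h
    · subst h
      rw [real_inner_self_eq_norm_sq, hy]
      simp
    · rfl
  obtain ⟨⟨a, b⟩, hab, hmin⟩ := ((univ : Finset (Fin (d + 2) × Fin (d + 2))).filter
    fun q => q.1 ≠ q.2).exists_min_image (fun q => m q.1 * m q.2)
    ⟨(0, Fin.last (d + 1)), by simp [Fin.ext_iff]⟩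
  have hab' : a ≠ b := (mem_filter.1 hab).2
  have hmin' : ∀ k l, k ≠ l → m a * m b ≤ m k * m l := fun k l hkl =>
    hmin (k, l) (mem_filter.2 ⟨mem_univ _, hkl⟩)
  have hmab : 0 ≤ m a * m b := mul_nonneg (hm0 a) (hm0 b)
  have s1 : m a * m b * π ≤ ∑ k, ∑ l, m k * m l * W k l := by
    calc m a * m b * π ≤ m a * m b * ∑ k, ∑ l, W k l := mul_le_mul_of_nonneg_left hTT hmab
      _ = ∑ k, ∑ l, m a * m b * W k l := by simp only [mul_sum]
      _ ≤ ∑ k, ∑ l, m k * m l * W k l := by
          refine sum_le_sum fun k _ => sum_le_sum fun l _ => ?_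
          by_cases hkl : k = l
          · simp only [hW, if_pos hkl, mul_zero, le_refl]
          · exact mul_le_mul_of_nonneg_right (hmin' k l hkl) (hW0 k l)
  set g : Fin (d + 2) → Fin (d + 2) := fun k => if k = b then a else k with hg
  have hgb : ∀ k, g k ≠ b := fun k => by
    simp only [hg]
    split_ifs with h
    · exact hab'
    · exact h
  have s2 : ∑ k, ∑ l, m k * m l * (if k ≠ l ∧ g k = g l then π / 2 else 0) ≤ m a * m b * π := by
    have h1 : ∀ k l, m k * m l * (if k ≠ l ∧ g k = g l then π / 2 else 0) ≤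
        (if k = a then (if l = b then m a * m b * (π / 2) else 0) else 0) +
        (if k = b then (if l = a then m a * m b * (π / 2) else 0) else 0) := by
      intro k l
      have hnn : 0 ≤ m a * m b * (π / 2) := mul_nonneg hmab (by positivity)
      by_cases h : k ≠ l ∧ g k = g l
      · rw [if_pos h]
        obtain ⟨hkl, hgkl⟩ := h
        simp only [hg] at hgkl
        by_cases hkb : k = b
        · have hlb : l ≠ b := fun h' => hkl (hkb.trans h'.symm)
          rw [if_pos hkb, if_neg hlb] at hgkl
          rw [if_pos hkb, if_pos hgkl.symm]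
          have h2 : 0 ≤ if k = a then (if l = b then m a * m b * (π / 2) else 0) else 0 := by
            split_ifs <;> first | exact hnn | exact le_rfl
          have h3 : m k * m l * (π / 2) = m a * m b * (π / 2) := by rw [hkb, ← hgkl]; ring
          linarith
        · rw [if_neg hkb] at hgkl
          by_cases hlb : l = b
          · rw [if_pos hlb] at hgkl
            rw [if_pos hgkl, if_pos hlb]
            have h2 : 0 ≤ if k = b then (if l = a then m a * m b * (π / 2) else 0) else 0 := by
              split_ifs <;> first | exact hnn | exact le_rfl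
            have h3 : m k * m l * (π / 2) = m a * m b * (π / 2) := by rw [hgkl, hlb]
            linarith
          · rw [if_neg hlb] at hgkl
            exact absurd hgkl hkl
      · rw [if_neg h, mul_zero]
        split_ifs <;> linarith
    refine (sum_le_sum fun k _ => sum_le_sum fun l _ => h1 k l).trans ?_
    simp only [sum_add_distrib]
    have e1 : ∑ k : Fin (d + 2), ∑ l : Fin (d + 2),
        (if k = a then (if l = b then m a * m b * (π / 2) else 0) else 0) =
        m a * m b * (π / 2) := by
      rw [Fintype.sum_eq_single a fun i hi => by simp [hi]]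
      simp
    have e2 : ∑ k : Fin (d + 2), ∑ l : Fin (d + 2),
        (if k = b then (if l = a then m a * m b * (π / 2) else 0) else 0) =
        m a * m b * (π / 2) := by
      rw [Fintype.sum_eq_single b fun i hi => by simp [hi]]
      simp
    rw [e1, e2]
    linarith
  calc ∑ i, ∑ j, arccos |inner ℝ (y (c i)) (y (c j))|
      = ∑ k, ∑ l, m k * m l * arccos |inner ℝ (y k) (y l)| :=
        fib2 c fun k l => arccos |inner ℝ (y k) (y l)|
    _ = ∑ k, ∑ l, m k * m l * (if k = l then 0 else π / 2) - ∑ k, ∑ l, m k * m l * W k l := by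
        rw [← sum_sub_distrib]
        refine sum_congr rfl fun k _ => ?_
        rw [← sum_sub_distrib]
        refine sum_congr rfl fun l _ => ?_
        rw [hF]; ring
    _ ≤ ∑ k, ∑ l, m k * m l * (if k = l then 0 else π / 2) -
        ∑ k, ∑ l, m k * m l * (if k ≠ l ∧ g k = g l then π / 2 else 0) := by linarith
    _ = ∑ k, ∑ l, m k * m l * (if g k = g l then 0 else π / 2) := by
        rw [← sum_sub_distrib]
        refine sum_congr rfl fun k _ => ?_
        rw [← sum_sub_distrib]
        refine sum_congr rfl fun l _ => ?_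
        by_cases hkl : k = l
        · rw [if_pos hkl, if_neg (fun h => h.1 hkl), if_pos (by rw [hkl])]; ring
        · by_cases hgkl : g k = g l
          · rw [if_neg hkl, if_pos ⟨hkl, hgkl⟩, if_pos hgkl]; ring
          · rw [if_neg hkl, if_neg (fun h => hgkl h.2), if_neg hgkl]; ring
    _ = ∑ i, ∑ j, (if g (c i) = g (c j) then 0 else π / 2) :=
        (fib2 c fun k l => if g k = g l then 0 else π / 2).symm
    _ = ∑ i, ∑ j, (if (⟨g (c i), hgb _⟩ : {k : Fin (d + 2) // k ≠ b}) = ⟨g (c j), hgb _⟩ then 0
          else π / 2) := by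
        refine sum_congr rfl fun i _ => sum_congr rfl fun j _ => ?_
        simp only [Subtype.mk.injEq]
    _ ≤ _ := turan_le (κ := {k : Fin (d + 2) // k ≠ b}) (by
        rw [Fintype.card_subtype_compl, Fintype.card_fin, Fintype.card_unique]
        omega) fun i => ⟨g (c i), hgb _⟩

end Pool.Agent.Helper36.FT
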