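import Pool.Agent.Helper36.FT.Lines

/-!
# Configurations on at most `d + 3` lines
-/

set_option autoImplicit false

open Real Finset

namespace Pool.Agent.Helper36.FT

variable {E : Type*} [NormedAddCommGroup E] [InnerProductSpace ℝ E]

theorem tt_succAbove {n : ℕ} (x : Fin (n + 1) → E) (k : Fin (n + 1)) :
    TT x = 2 * ∑ j, (if k = j then 0 else ww (x k) (x j)) + TT fun i => x (k.succAbove i) := by
  have hRk : ∑ j, (if k = j then 0 else ww (x k) (x j)) =
      ∑ i : Fin n, ww (x k) (x (k.succAbove i)) := by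
    rw [Fin.sum_univ_succAbove _ k, if_pos rfl, zero_add]
    refine sum_congr rfl fun i _ => ?_
    rw [if_neg (Fin.succAbove_ne k i).symm]
  rw [hRk]
  unfold TT
  rw [Fin.sum_univ_succAbove _ k, hRk]
  have h2 : ∀ i : Fin n, ∑ j, (if k.succAbove i = j then 0 else ww (x (k.succAbove i)) (x j)) =
      ww (x k) (x (k.succAbove i)) + ∑ j : Fin n,
        (if i = j then 0 else ww (x (k.succAbove i)) (x (k.succAbove j))) := by
    intro i
    rw [Fin.sum_univ_succAbove _ k, if_neg (Fin.succAbove_ne k i)]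
    congr 1
    · exact ww_comm _ _
    · refine sum_congr rfl fun j _ => ?_
      by_cases hij : i = j
      · rw [if_pos hij, if_pos (by rw [hij])]
      · rw [if_neg hij, if_neg fun h => hij (Fin.succAbove_right_injective h)]
  simp only [h2, sum_add_distrib]
  ring

theorem dual {n : ℕ} (m μ : Fin n → ℝ) (W : Fin n → Fin n → ℝ) (lam : ℝ)
    (hW0 : ∀ k l, 0 ≤ W k l) (hWd : ∀ k, W k k = 0) (hWs : ∀ k l, W k l = W l k)
    (hlam : 0 ≤ lam) (hμ : ∀ k, 0 ≤ μ k)
    (hfe : ∀ k l, k ≠ l → lam + ∑ v, μ v - μ k - μ l ≤ m k * m l)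
    (hT : 2 * π ≤ ∑ k, ∑ l, W k l)
    (hR : ∀ v, π ≤ ∑ k, ∑ l, W k l - 2 * ∑ l, W v l) :
    π * (2 * lam + ∑ v, μ v) ≤ ∑ k, ∑ l, m k * m l * W k l := by
  set T : ℝ := ∑ k, ∑ l, W k l with hTdef
  set M : ℝ := ∑ v, μ v with hM
  have h1 : ∑ k, ∑ l, (lam + M - μ k - μ l) * W k l ≤ ∑ k, ∑ l, m k * m l * W k l := by
    refine sum_le_sum fun k _ => sum_le_sum fun l _ => ?_
    by_cases hkl : k = l
    · rw [hkl, hWd, mul_zero, mul_zero]
    · exact mul_le_mul_of_nonneg_right (hfe k l hkl) (hW0 k l)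
  have h2 : ∑ k, ∑ l, (lam + M - μ k - μ l) * W k l =
      lam * T + ∑ v, μ v * (T - 2 * ∑ l, W v l) := by
    have e1 : ∀ k, ∑ l, (lam + M - μ k - μ l) * W k l =
        (lam + M) * ∑ l, W k l - μ k * ∑ l, W k l - ∑ l, μ l * W k l := by
      intro k
      rw [mul_sum, mul_sum, ← sum_sub_distrib, ← sum_sub_distrib]
      refine sum_congr rfl fun l _ => ?_
      ring
    have e2 : ∑ k, ∑ l, μ l * W k l = ∑ k, μ k * ∑ l, W k l := by
      rw [sum_comm]
      refine sum_congr rfl fun l _ => ?_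
      rw [mul_sum]
      refine sum_congr rfl fun k _ => ?_
      rw [hWs]
    simp only [e1, sum_sub_distrib, e2, ← mul_sum]
    rw [← hTdef]
    have e3 : ∑ v, μ v * (T - 2 * ∑ l, W v l) = M * T - 2 * ∑ v, μ v * ∑ l, W v l := by
      rw [hM, sum_mul, mul_sum, ← sum_sub_distrib]
      refine sum_congr rfl fun v _ => ?_
      ring
    rw [e3]
    ring
  have h3 : M * π ≤ ∑ v, μ v * (T - 2 * ∑ l, W v l) := by
    rw [hM, sum_mul]
    exact sum_le_sum fun v _ => mul_le_mul_of_nonneg_left (hR v) (hμ v)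
  have h4 : lam * (2 * π) ≤ lam * T := mul_le_mul_of_nonneg_left hT hlam
  linarith

/-- the number of the points of a class -/
noncomputable def mu {N n : ℕ} (c : Fin N → Fin n) (k : Fin n) : ℝ :=
  ((univ.filter fun i => c i = k).card : ℝ)

theorem mu_nonneg {N n : ℕ} (c : Fin N → Fin n) (k : Fin n) : 0 ≤ mu c k := Nat.cast_nonneg _

theorem merge {d N n : ℕ} (y : Fin n → E) (hy : ∀ k, ‖y k‖ = 1) (c : Fin N → Fin n)
    (g : Fin n → Fin n) (P : Finset (Fin n)) (hP : P.card ≤ d + 1) (hgP : ∀ k, g k ∈ P)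
    (h : ∑ k, ∑ l, mu c k * mu c l * (if k ≠ l ∧ g k = g l then π / 2 else 0) ≤
      ∑ k, ∑ l, mu c k * mu c l * (if k = l then 0 else ww (y k) (y l))) :
    ∑ i, ∑ j, arccos |inner ℝ (y (c i)) (y (c j))| ≤
      ∑ i : Fin N, ∑ j : Fin N, (if (i : ℕ) % (d + 1) = (j : ℕ) % (d + 1) then 0 else π / 2) := by
  have hF : ∀ k l, arccos |inner ℝ (y k) (y l)| =
      (if k = l then 0 else π / 2) - (if k = l then 0 else ww (y k) (y l)) := by
    intro k l
    split_ifs with h
    · subst h
      rw [real_inner_self_eq_norm_sq, hy]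
      simp
    · rfl
  calc ∑ i, ∑ j, arccos |inner ℝ (y (c i)) (y (c j))|
      = ∑ k, ∑ l, mu c k * mu c l * arccos |inner ℝ (y k) (y l)| :=
        fib2 c fun k l => arccos |inner ℝ (y k) (y l)|
    _ = ∑ k, ∑ l, mu c k * mu c l * (if k = l then 0 else π / 2) -
        ∑ k, ∑ l, mu c k * mu c l * (if k = l then 0 else ww (y k) (y l)) := by
        rw [← sum_sub_distrib]
        refine sum_congr rfl fun k _ => ?_
        rw [← sum_sub_distrib]
        refine sum_congr rfl fun l _ => ?_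
        rw [hF]; ring
    _ ≤ ∑ k, ∑ l, mu c k * mu c l * (if k = l then 0 else π / 2) -
        ∑ k, ∑ l, mu c k * mu c l * (if k ≠ l ∧ g k = g l then π / 2 else 0) := by linarith
    _ = ∑ k, ∑ l, mu c k * mu c l * (if g k = g l then 0 else π / 2) := by
        rw [← sum_sub_distrib]
        refine sum_congr rfl fun k _ => ?_
        rw [← sum_sub_distrib]
        refine sum_congr rfl fun l _ => ?_
        by_cases hkl : k = l
        · rw [if_pos hkl, if_neg (fun h => h.1 hkl), if_pos (by rw [hkl])]; ring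
        · by_cases hgkl : g k = g l
          · rw [if_neg hkl, if_pos ⟨hkl, hgkl⟩, if_pos hgkl]; ring
          · rw [if_neg hkl, if_neg (fun h => hgkl h.2), if_neg hgkl]; ring
    _ = ∑ i, ∑ j, (if g (c i) = g (c j) then 0 else π / 2) :=
        (fib2 c fun k l => if g k = g l then 0 else π / 2).symm
    _ = ∑ i, ∑ j, (if (⟨g (c i), hgP _⟩ : {k // k ∈ P}) = ⟨g (c j), hgP _⟩ then 0
          else π / 2) := by
        refine sum_congr rfl fun i _ => sum_congr rfl fun j _ => ?_
        simp only [Subtype.mk.injEq]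
    _ ≤ _ := turan_le (κ := {k // k ∈ P}) (by rwa [Fintype.card_coe]) fun i => ⟨g (c i), hgP _⟩

theorem sum_ind {n : ℕ} (a b : Fin n) (z : ℝ) :
    ∑ k, ∑ l, (if k = a ∧ l = b then z else 0) = z := by
  rw [Fintype.sum_eq_single a fun k hk => by simp [hk]]
  simp

/-- The sorted case. -/
theorem sorted {e N : ℕ} (y : Fin (e + 4) → E) (hy : ∀ k, ‖y k‖ = 1) (c : Fin N → Fin (e + 4))
    (hmono : Monotone (mu c)) (hT : 2 * π ≤ TT y)
    (hR : ∀ v : Fin (e + 4), π ≤ TT fun i => y (v.succAbove i)) :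
    ∑ i, ∑ j, arccos |inner ℝ (y (c i)) (y (c j))| ≤
      ∑ i : Fin N, ∑ j : Fin N,
        (if (i : ℕ) % (e + 1 + 1) = (j : ℕ) % (e + 1 + 1) then 0 else π / 2) := by
  have hpi := pi_pos
  set W : Fin (e + 4) → Fin (e + 4) → ℝ := fun k l => if k = l then 0 else ww (y k) (y l) with hW
  have hW0 : ∀ k l, 0 ≤ W k l := fun k l => by
    simp only [hW]
    split_ifs
    · exact le_rfl
    · exact ww_nonneg _ _
  have hWd : ∀ k, W k k = 0 := fun k => by simp [hW]
  have hWs : ∀ k l, W k l = W l k := fun k l => by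
    simp only [hW]
    by_cases h : k = l
    · rw [if_pos h, if_pos h.symm]
    · rw [if_neg h, if_neg (Ne.symm h), ww_comm]
  have hT' : 2 * π ≤ ∑ k, ∑ l, W k l := hT
  have hR' : ∀ v, π ≤ ∑ k, ∑ l, W k l - 2 * ∑ l, W v l := by
    intro v
    have h1 := tt_succAbove y v
    have h2 := hR v
    have h3 : TT y = ∑ k, ∑ l, W k l := rfl
    have h4 : ∑ j, (if v = j then 0 else ww (y v) (y j)) = ∑ l, W v l := rfl
    rw [h3, h4] at h1
    linarith
  set i0 : Fin (e + 4) := ⟨0, by omega⟩ with hi0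
  set i1 : Fin (e + 4) := ⟨1, by omega⟩ with hi1
  set i2 : Fin (e + 4) := ⟨2, by omega⟩ with hi2
  set i3 : Fin (e + 4) := ⟨3, by omega⟩ with hi3
  have n01 : i0 ≠ i1 := by simp [hi0, hi1]
  have n02 : i0 ≠ i2 := by simp [hi0, hi2]
  have n03 : i0 ≠ i3 := by simp [hi0, hi3]
  have n12 : i1 ≠ i2 := by simp [hi1, hi2]
  have n13 : i1 ≠ i3 := by simp [hi1, hi3]
  have n23 : i2 ≠ i3 := by simp [hi2, hi3]
  set a1 := mu c i0 with ha1
  set a2 := mu c i1 with ha2
  set a3 := mu c i2 with ha3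
  set a4 := mu c i3 with ha4
  have p1 : 0 ≤ a1 := mu_nonneg _ _
  have p12 : a1 ≤ a2 := hmono (show i0 ≤ i1 from Fin.mk_le_mk.2 (by norm_num))
  have p23 : a2 ≤ a3 := hmono (show i1 ≤ i2 from Fin.mk_le_mk.2 (by norm_num))
  have p34 : a3 ≤ a4 := hmono (show i2 ≤ i3 from Fin.mk_le_mk.2 (by norm_num))
  have p4 : ∀ k : Fin (e + 4), 3 ≤ (k : ℕ) → a4 ≤ mu c k := fun k hk => hmono (by
    rw [Fin.le_def]; exact hk)
  -- the dual bound
  have key : ∀ lam μ1 μ2 μ3 : ℝ, 0 ≤ lam → 0 ≤ μ1 → 0 ≤ μ2 → 0 ≤ μ3 →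
      lam + μ3 ≤ a1 * a2 → lam + μ2 ≤ a1 * a3 → lam + μ1 ≤ a2 * a3 →
      lam + μ2 + μ3 ≤ a1 * a4 → lam + μ1 + μ3 ≤ a2 * a4 → lam + μ1 + μ2 ≤ a3 * a4 →
      lam + μ1 + μ2 + μ3 ≤ a4 * a4 →
      π * (2 * lam + (μ1 + μ2 + μ3)) ≤ ∑ k, ∑ l, mu c k * mu c l * W k l := by
    intro lam μ1 μ2 μ3 h0 h1 h2 h3 e01 e02 e12 e0 e1 e2 e3
    set μ : Fin (e + 4) → ℝ := fun k =>
      (if k = i0 then μ1 else 0) + (if k = i1 then μ2 else 0) + (if k = i2 then μ3 else 0) with hμ
    have hsum : ∑ v, μ v = μ1 + μ2 + μ3 := by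
      simp only [hμ, sum_add_distrib, sum_ite_eq', mem_univ, if_true]
    have v0 : μ i0 = μ1 := by simp [hμ, n01, n02]
    have v1 : μ i1 = μ2 := by simp [hμ, n01.symm, n12]
    have v2 : μ i2 = μ3 := by simp [hμ, n02.symm, n12.symm]
    have v3 : ∀ k : Fin (e + 4), 3 ≤ (k : ℕ) → μ k = 0 := by
      intro k hk
      have q0 : k ≠ i0 := fun h => by rw [h, hi0] at hk; simp at hk
      have q1 : k ≠ i1 := fun h => by rw [h, hi1] at hk; simp at hk
      have q2 : k ≠ i2 := fun h => by rw [h, hi2] at hk; simp at hk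
      simp [hμ, q0, q1, q2]
    have hcases : ∀ k : Fin (e + 4), k = i0 ∨ k = i1 ∨ k = i2 ∨ 3 ≤ (k : ℕ) := by
      intro k
      rcases Nat.lt_or_ge (k : ℕ) 3 with h | h
      · rcases (show (k : ℕ) = 0 ∨ (k : ℕ) = 1 ∨ (k : ℕ) = 2 by omega) with h' | h' | h'
        · left; exact Fin.ext h'
        · right; left; exact Fin.ext h'
        · right; right; left; exact Fin.ext h'
      · exact Or.inr (Or.inr (Or.inr h))
    have hfe : ∀ k l, k ≠ l → lam + ∑ v, μ v - μ k - μ l ≤ mu c k * mu c l := by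
      have hlt : ∀ k l : Fin (e + 4), (k : ℕ) < l →
          lam + ∑ v, μ v - μ k - μ l ≤ mu c k * mu c l := by
        intro k l hkl
        rw [hsum]
        rcases hcases k with rfl | rfl | rfl | hk
        · rcases hcases l with rfl | rfl | rfl | hl
          · exact absurd hkl (lt_irrefl _)
          · rw [v0, v1]; linarith
          · rw [v0, v2]; linarith
          · rw [v0, v3 l hl]
            have := mul_le_mul_of_nonneg_left (p4 l hl) p1
            linarith
        · rcases hcases l with rfl | rfl | rfl | hl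
          · simp [hi0, hi1] at hkl
          · exact absurd hkl (lt_irrefl _)
          · rw [v1, v2]; linarith
          · rw [v1, v3 l hl]
            have := mul_le_mul_of_nonneg_left (p4 l hl) (p1.trans p12)
            linarith
        · rcases hcases l with rfl | rfl | rfl | hl
          · simp [hi0, hi2] at hkl
          · simp [hi1, hi2] at hkl
          · exact absurd hkl (lt_irrefl _)
          · rw [v2, v3 l hl]
            have := mul_le_mul_of_nonneg_left (p4 l hl) ((p1.trans p12).trans p23)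
            linarith
        · have hl : 3 ≤ (l : ℕ) := by omega
          rw [v3 k hk, v3 l hl]
          have := mul_le_mul (p4 k hk) (p4 l hl) (((p1.trans p12).trans p23).trans p34)
            (mu_nonneg _ _)
          linarith
      intro k l hkl
      rcases lt_or_gt_of_ne (fun h : (k : ℕ) = l => hkl (Fin.ext h)) with h | h
      · exact hlt k l h
      · have := hlt l k h
        rw [mul_comm (mu c k)]
        linarith
    have := dual (mu c) μ W lam hW0 hWd hWs h0 (fun k => by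
      simp only [hμ]
      have : ∀ (q : Prop) [Decidable q] (z : ℝ), 0 ≤ z → 0 ≤ if q then z else 0 := by
        intro q _ z hz
        split_ifs
        · exact hz
        · exact le_rfl
      have r1 := this (k = i0) μ1 h1
      have r2 := this (k = i1) μ2 h2
      have r3 := this (k = i2) μ3 h3
      linarith) hfe hT' hR'
    rw [hsum] at this
    exact this
  have hcard : ∀ a b : Fin (e + 4), a ≠ b → ((univ.erase a).erase b).card ≤ e + 1 + 1 := by
    intro a b hab
    rw [card_erase_of_mem (mem_erase.2 ⟨hab.symm, mem_univ _⟩), card_erase_of_mem (mem_univ _),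
      card_univ, Fintype.card_fin]
    omega
  have hind : ∀ (a b k l : Fin (e + 4)), 0 ≤ (if k = a ∧ l = b then mu c a * mu c b * (π / 2)
      else 0) := by
    intro a b k l
    split_ifs
    · exact mul_nonneg (mul_nonneg (mu_nonneg _ _) (mu_nonneg _ _)) (by positivity)
    · exact le_rfl
  rcases le_total a4 (a2 + a3) with hA | hB
  · -- two pairs
    have k1 := key (a1 * (a2 + a3 - a4)) (a2 * a3 - a1 * (a2 + a3 - a4)) (a1 * (a4 - a2))
      (a1 * (a4 - a3)) (mul_nonneg p1 (by linarith)) (by nlinarith) (mul_nonneg p1 (by linarith))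
      (mul_nonneg p1 (by linarith)) (by nlinarith) (by nlinarith) (by nlinarith) (by nlinarith)
      (by nlinarith) (by nlinarith) (by nlinarith)
    set g : Fin (e + 4) → Fin (e + 4) := fun k => if k = i3 then i0 else if k = i2 then i1 else k
      with hg
    apply merge y hy c g ((univ.erase i2).erase i3) (hcard _ _ n23)
    · intro k
      rw [mem_erase, mem_erase]
      simp only [hg]
      split_ifs with h1 h2
      · exact ⟨n03, n02, mem_univ _⟩
      · exact ⟨n13, n12, mem_univ _⟩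
      · exact ⟨h1, h2, mem_univ _⟩
    · refine le_trans ?_ k1
      have hpt : ∀ k l, mu c k * mu c l * (if k ≠ l ∧ g k = g l then π / 2 else 0) ≤
          (if k = i0 ∧ l = i3 then mu c i0 * mu c i3 * (π / 2) else 0) +
          (if k = i3 ∧ l = i0 then mu c i3 * mu c i0 * (π / 2) else 0) +
          (if k = i1 ∧ l = i2 then mu c i1 * mu c i2 * (π / 2) else 0) +
          (if k = i2 ∧ l = i1 then mu c i2 * mu c i1 * (π / 2) else 0) := by
        intro k l
        have r1 := hind i0 i3 k l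
        have r2 := hind i3 i0 k l
        have r3 := hind i1 i2 k l
        have r4 := hind i2 i1 k l
        by_cases h : k ≠ l ∧ g k = g l
        · have h' : (k = i0 ∧ l = i3) ∨ (k = i3 ∧ l = i0) ∨ (k = i1 ∧ l = i2) ∨
              (k = i2 ∧ l = i1) := by
            obtain ⟨hkl, hgg⟩ := h
            simp only [hg] at hgg
            split_ifs at hgg with q1 q2 q3 q4 q5 q6 q7 q8
            · exact absurd (q1.trans q2.symm) hkl
            · exact absurd hgg n01
            · exact Or.inr (Or.inl ⟨q1, hgg.symm⟩)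
            · exact absurd hgg n01.symm
            · exact absurd (q4.trans q6.symm) hkl
            · exact Or.inr (Or.inr (Or.inr ⟨q4, hgg.symm⟩))
            · exact Or.inl ⟨hgg, q7⟩
            · exact Or.inr (Or.inr (Or.inl ⟨hgg, q8⟩))
            · exact absurd hgg hkl
          rw [if_pos h]
          rcases h' with ⟨rfl, rfl⟩ | ⟨rfl, rfl⟩ | ⟨rfl, rfl⟩ | ⟨rfl, rfl⟩
          · rw [if_pos ⟨rfl, rfl⟩] at r1 ⊢; linarith
          · rw [if_pos (⟨rfl, rfl⟩ : i3 = i3 ∧ i0 = i0)] at r2 ⊢; linarith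
          · rw [if_pos (⟨rfl, rfl⟩ : i1 = i1 ∧ i2 = i2)] at r3 ⊢; linarith
          · rw [if_pos (⟨rfl, rfl⟩ : i2 = i2 ∧ i1 = i1)] at r4 ⊢; linarith
        · rw [if_neg h, mul_zero]
          linarith
      refine (sum_le_sum fun k _ => sum_le_sum fun l _ => hpt k l).trans ?_
      simp only [sum_add_distrib, sum_ind]
      nlinarith
  · -- a triple
    have k1 := key 0 (a2 * a3) (a1 * a3) (a1 * a2) le_rfl
      (mul_nonneg (p1.trans p12) ((p1.trans p12).trans p23))
      (mul_nonneg p1 ((p1.trans p12).trans p23)) (mul_nonneg p1 (p1.trans p12))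
      (by linarith) (by linarith) (by linarith) (by nlinarith) (by nlinarith) (by nlinarith)
      (by nlinarith)
    set g : Fin (e + 4) → Fin (e + 4) := fun k => if k = i1 then i0 else if k = i2 then i0 else k
      with hg
    apply merge y hy c g ((univ.erase i1).erase i2) (hcard _ _ n12)
    · intro k
      rw [mem_erase, mem_erase]
      simp only [hg]
      split_ifs with h1 h2
      · exact ⟨n02, n01, mem_univ _⟩
      · exact ⟨n02, n01, mem_univ _⟩
      · exact ⟨h2, h1, mem_univ _⟩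
    · refine le_trans ?_ k1
      have hpt : ∀ k l, mu c k * mu c l * (if k ≠ l ∧ g k = g l then π / 2 else 0) ≤
          (if k = i0 ∧ l = i1 then mu c i0 * mu c i1 * (π / 2) else 0) +
          (if k = i1 ∧ l = i0 then mu c i1 * mu c i0 * (π / 2) else 0) +
          (if k = i0 ∧ l = i2 then mu c i0 * mu c i2 * (π / 2) else 0) +
          (if k = i2 ∧ l = i0 then mu c i2 * mu c i0 * (π / 2) else 0) +
          (if k = i1 ∧ l = i2 then mu c i1 * mu c i2 * (π / 2) else 0) +
          (if k = i2 ∧ l = i1 then mu c i2 * mu c i1 * (π / 2) else 0) := by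
        intro k l
        have r1 := hind i0 i1 k l
        have r2 := hind i1 i0 k l
        have r3 := hind i0 i2 k l
        have r4 := hind i2 i0 k l
        have r5 := hind i1 i2 k l
        have r6 := hind i2 i1 k l
        by_cases h : k ≠ l ∧ g k = g l
        · have h' : (k = i0 ∧ l = i1) ∨ (k = i1 ∧ l = i0) ∨ (k = i0 ∧ l = i2) ∨
              (k = i2 ∧ l = i0) ∨ (k = i1 ∧ l = i2) ∨ (k = i2 ∧ l = i1) := by
            obtain ⟨hkl, hgg⟩ := h
            simp only [hg] at hgg
            split_ifs at hgg with q1 q2 q3 q4 q5 q6 q7 q8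
            · exact absurd (q1.trans q2.symm) hkl
            · exact Or.inr (Or.inr (Or.inr (Or.inr (Or.inl ⟨q1, q3⟩))))
            · exact Or.inr (Or.inl ⟨q1, hgg.symm⟩)
            · exact Or.inr (Or.inr (Or.inr (Or.inr (Or.inr ⟨q4, q5⟩))))
            · exact absurd (q4.trans q6.symm) hkl
            · exact Or.inr (Or.inr (Or.inr (Or.inl ⟨q4, hgg.symm⟩)))
            · exact Or.inl ⟨hgg, q7⟩
            · exact Or.inr (Or.inr (Or.inl ⟨hgg, q8⟩))
            · exact absurd hgg hkl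
          rw [if_pos h]
          rcases h' with ⟨rfl, rfl⟩ | ⟨rfl, rfl⟩ | ⟨rfl, rfl⟩ | ⟨rfl, rfl⟩ | ⟨rfl, rfl⟩ | ⟨rfl, rfl⟩
          · rw [if_pos (⟨rfl, rfl⟩ : i0 = i0 ∧ i1 = i1)] at r1 ⊢; linarith
          · rw [if_pos (⟨rfl, rfl⟩ : i1 = i1 ∧ i0 = i0)] at r2 ⊢; linarith
          · rw [if_pos (⟨rfl, rfl⟩ : i0 = i0 ∧ i2 = i2)] at r3 ⊢; linarith
          · rw [if_pos (⟨rfl, rfl⟩ : i2 = i2 ∧ i0 = i0)] at r4 ⊢; linarith
          · rw [if_pos (⟨rfl, rfl⟩ : i1 = i1 ∧ i2 = i2)] at r5 ⊢; linarith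
          · rw [if_pos (⟨rfl, rfl⟩ : i2 = i2 ∧ i1 = i1)] at r6 ⊢; linarith
        · rw [if_neg h, mul_zero]
          linarith
      refine (sum_le_sum fun k _ => sum_le_sum fun l _ => hpt k l).trans ?_
      simp only [sum_add_distrib, sum_ind]
      nlinarith

end Pool.Agent.Helper36.FT
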