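import Pool.Agent.Helper36.FT.Lines3
import Pool.Agent.Helper3.AA.All

/-!
# Configurations on the lines of `d + 3` unit vectors of `ℝ^(d+1)`
-/

set_option autoImplicit false

open Real Finset

namespace Pool.Agent.Helper36.FT

theorem weighted3 {e N : ℕ} (x : Fin (e + 4) → EuclideanSpace ℝ (Fin (e + 1 + 1)))
    (hx : ∀ k, ‖x k‖ = 1) (c : Fin N → Fin (e + 4)) :
    ∑ i, ∑ j, arccos |inner ℝ (x (c i)) (x (c j))| ≤
      ∑ i : Fin N, ∑ j : Fin N,
        (if (i : ℕ) % (e + 1 + 1) = (j : ℕ) % (e + 1 + 1) then 0 else π / 2) := by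
  have hmain : ∀ (σ : Equiv.Perm (Fin (e + 4))), σ = Tuple.sort (mu c) →
      ∑ i, ∑ j, arccos |inner ℝ (x (c i)) (x (c j))| ≤
      ∑ i : Fin N, ∑ j : Fin N,
        (if (i : ℕ) % (e + 1 + 1) = (j : ℕ) % (e + 1 + 1) then 0 else π / 2) := by
    intro σ hσ
    have hmu : ∀ k, mu (fun i => σ.symm (c i)) k = mu c (σ k) := by
      intro k
      unfold mu
      simp only [Equiv.symm_apply_eq]
    have hmono : Monotone (mu fun i => σ.symm (c i)) := by
      have h1 : mu (fun i => σ.symm (c i)) = mu c ∘ σ := funext hmu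
      rw [h1, hσ]
      exact Tuple.monotone_sort _
    have hT : 2 * π ≤ TT fun k => x (σ k) := by
      have h1 : π ≤ Pool.Agent.Helper3.AA.ps (List.ofFn fun k => x (σ k)) := by
        apply Pool.Agent.Helper3.AA.two _ (⊤ : Submodule ℝ (EuclideanSpace ℝ (Fin (e + 1 + 1))))
        · intro y hy
          obtain ⟨i, rfl⟩ := (List.mem_ofFn' _ _).1 hy
          exact ⟨Submodule.mem_top, hx _⟩
        · rw [finrank_top, finrank_euclideanSpace, Fintype.card_fin, List.length_ofFn]
      have h2 := Pool.Agent.Helper36.AA.two_ps fun k => x (σ k)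
      have h3 : TT (fun k => x (σ k)) =
          2 * Pool.Agent.Helper3.AA.ps (List.ofFn fun k => x (σ k)) := h2
      rw [h3]
      linarith
    have hR : ∀ v : Fin (e + 4), π ≤ TT fun i => x (σ (v.succAbove i)) := by
      intro v
      apply dependent
      · intro i
        exact hx _
      · intro hli
        have h2 := hli.fintype_card_le_finrank
        simp only [Fintype.card_fin, finrank_euclideanSpace] at h2
        omega
    have h := sorted (fun k => x (σ k)) (fun k => hx _) (fun i => σ.symm (c i)) hmono hT hR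
    simpa only [Equiv.apply_symm_apply] using h
  exact hmain _ rfl

end Pool.Agent.Helper36.FT
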